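import Pool.Agent.H3Z.BdGame

namespace Pool.Agent.Results.MP_071b0a_lc.ABdGameNotGenMeas

open Pool.Agent.H3Z

/-- If there is an `ω₁`-strongly compact cardinal, then there is a countable transitive model of
ZFC with a regular `κ > γ = ω₁` such that Choose wins `U(κ, bd, <γ)` but no `<γ`-closed forcing
witnesses that `κ` is generically measurable. -/
theorem result (h : ∃ δ : Cardinal.{0}, OmegaOneStronglyCompact δ) :
    ∃ W : Set ZFSet.{0}, CohenE.CTM W ∧ ∃ κ γ : ZFSet.{0},
      RegUnc W κ ∧ IsSuccIn W ZFSet.omega γ ∧ γ ∈ κ ∧ WinsBd W κ γ ∧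
      ∀ P R : ZFSet.{0}, ClosedForcing W γ P R → ¬ NamesNormalUF W κ P R :=
  bd_model h

end Pool.Agent.Results.MP_071b0a_lc.ABdGameNotGenMeas
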